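import Pool.Agent.helper77.MC.Spec

set_option autoImplicit false

namespace Pool.Agent.helper77.MC

open Finset Numbering

theorem AN (h1 : CR_stmt) : AN_stmt := by
  intro ε hε
  by_cases hε2 : ε < 1 / 2
  swap
  · refine ⟨6, le_rfl, ?_⟩
    intro n k hn hk1 hk2
    exfalso
    have hn' : (6 : ℝ) ≤ n := by exact_mod_cast hn
    have h2 : 1 / 2 ≤ ε := not_lt.mp hε2
    nlinarith
  obtain ⟨r, hr⟩ : ∃ r : ℝ, r = (1 / 2 - ε) / (1 / 2 + ε) := ⟨_, rfl⟩
  have hpos : (0 : ℝ) < 1 / 2 + ε := by linarith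
  have hr0 : 0 < r := by
    rw [hr]
    exact div_pos (by linarith) hpos
  have hr1 : r < 1 := by
    rw [hr, div_lt_one hpos]
    linarith
  have hr2 : 0 < 2 - r - r ^ 2 := by nlinarith
  have hr3 : r * (1 / 2 + ε) = 1 / 2 - ε := by
    rw [hr]
    exact div_mul_cancel₀ _ hpos.ne'
  obtain ⟨E, hE⟩ := exists_pow_lt_of_lt_one hr2 hr1
  refine ⟨6 * E + 6, by omega, ?_⟩
  intro n k hn hk1 hk2
  have hn0 : (0 : ℝ) ≤ n := Nat.cast_nonneg _
  have hkn : n ≤ 3 * k := by
    have : (n : ℝ) ≤ 3 * k := by linarith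
    exact_mod_cast this
  have hkn2 : 2 * k ≤ n := by
    have : (2 : ℝ) * k ≤ n := by nlinarith
    exact_mod_cast this
  obtain ⟨K, rfl⟩ : ∃ K, k = K + 1 := ⟨k - 1, by omega⟩
  obtain ⟨q, rfl⟩ : ∃ q, n = q + 2 := ⟨n - 2, by omega⟩
  have e1 : q + 2 - 2 = q := by omega
  have e2 : K + 1 - 1 = K := by omega
  have e3 : q + 2 - 1 = q + 1 := by omega
  rw [e1, e2, e3]
  have hKq : K ≤ q := by omega
  have hcr := h1 q K r hr0 hr1.le hKq (by
    push_cast at hk2
    have h4 : (1 / 2 + ε) * ((q : ℝ) + 2) ≤ (q : ℝ) + 1 - K := by linarith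
    have h5 : r * ((1 / 2 + ε) * ((q : ℝ) + 2)) ≤ r * ((q : ℝ) + 1 - K) :=
      mul_le_mul_of_nonneg_left h4 hr0.le
    have h6 : r * ((1 / 2 + ε) * ((q : ℝ) + 2)) = (1 / 2 - ε) * ((q : ℝ) + 2) := by
      rw [← mul_assoc, hr3]
    linarith)
  obtain ⟨w, hw⟩ : ∃ w : ℝ, w = (q.choose K : ℝ) := ⟨_, rfl⟩
  have hw0 : 0 ≤ w := by
    rw [hw]
    exact Nat.cast_nonneg _
  have hB : ∀ j d : ℕ, j + d ≤ K → (q.choose j : ℝ) ≤ r ^ d * w := by
    intro j d hjd
    have h2 := hcr j (K - j) (by omega)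
    have h3 : j + (K - j) = K := by omega
    rw [h3, ← hw] at h2
    refine h2.trans (mul_le_mul_of_nonneg_right ?_ hw0)
    exact pow_le_pow_of_le_one hr0.le hr1.le (by omega)
  have hA : ∀ j, j ≤ K → (q.choose j : ℝ) ≤ w := by
    intro j hj
    have h2 := hB j 0 (by omega)
    rwa [pow_zero, one_mul] at h2
  rw [← hw]
  refine ⟨fun j hj => hA j hj, ?_, ?_⟩
  · intro j hj a ha haj
    have h2 := hB j 1 (by omega)
    rw [pow_one] at h2
    have h3 : ∀ b c : ℕ, b + c = j → 1 ≤ b → b ≤ c →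
        (q.choose b : ℝ) + (q.choose c : ℝ) ≤ r ^ E * w + r ^ 2 * w := by
      intro b c hbc hb hle
      exact add_le_add (hB b E (by omega)) (hB c 2 (by omega))
    have h4 : (q.choose a : ℝ) + (q.choose (j - a) : ℝ) ≤ r ^ E * w + r ^ 2 * w := by
      by_cases h : a ≤ j - a
      · exact h3 a (j - a) (by omega) ha h
      · have h5 := h3 (j - a) a (by omega) (by omega) (by omega)
        linarith
    have h6 : (r + (r ^ E + r ^ 2)) * w ≤ 2 * w := by
      refine mul_le_mul_of_nonneg_right ?_ hw0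
      linarith
    linarith
  · intro j hj
    cases j with
    | zero =>
      have h2 := hA 0 (by omega)
      rw [Nat.choose_zero_right] at h2 ⊢
      linarith
    | succ j =>
      rw [Nat.choose_succ_succ q j]
      push_cast
      have h2 := hA j (by omega)
      have h3 := hA (j + 1) hj
      have h4 : (q.choose j.succ : ℝ) ≤ w := h3
      linarith

end Pool.Agent.helper77.MC
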