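import Pool.Agent.helper76.MC.Defs

/-! # Project MC, module P1: invariance and support of the patterns -/

namespace Pool.Agent.helper76.MC

open Finset Pool.Agent.helper34.DH Pool.Agent.helper76.FV Pool.Agent.helper76.LP
open Pool.Agent.helper76.UR
open Matrix (SpecialLinearGroup)

/-- the reduction of a good unit modulo an odd prime is a square -/
lemma P1_sq_mod {m p : ℕ} [NeZero m] (hp : p.Prime) (ho : Odd p) (hpm : p ∣ m) (t : (ZMod m)ˣ)
    (ht : IsSquare t ∨ IsStar m t) : IsSquare (ZMod.unitsMap hpm t) := by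
  rcases ht with ht | ht
  · exact ht.map _
  · have h1 : ZMod.unitsMap hpm t = 1 := by
      apply Units.ext
      rw [ZMod.unitsMap_val, Units.val_one]
      unfold IsStar at ht
      rw [ht]
      have hp2 : p ≠ 2 := by rintro rfl; revert ho; decide
      have h2 : p ∣ ordCompl[2] m := by
        have h3 : p ∣ ordProj[2] m * ordCompl[2] m := by
          rw [Nat.ordProj_mul_ordCompl_eq_self]; exact hpm
        refine Nat.Coprime.dvd_of_dvd_mul_left ?_ h3
        exact Nat.Coprime.pow_right _ ((Nat.coprime_primes hp Nat.prime_two).2 hp2)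
      obtain ⟨k, hk⟩ := h2
      rw [hk, ZMod.cast_natCast hpm]
      push_cast
      simp
    rw [h1]
    exact IsSquare.one

/-- a good unit is `1` modulo `4` -/
lemma P1_one_mod {m : ℕ} [NeZero m] (h4 : 4 ∣ m) (t : (ZMod m)ˣ)
    (ht : IsSquare t ∨ IsStar m t) : ZMod.castHom h4 (ZMod 4) (t : ZMod m) = 1 := by
  rcases ht with ht | ht
  · obtain ⟨s, rfl⟩ := ht
    have h1 : ∀ u : (ZMod 4)ˣ, ((u * u : (ZMod 4)ˣ) : ZMod 4) = 1 := by decide
    have h2 := h1 (ZMod.unitsMap h4 s)
    rw [← map_mul] at h2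
    rw [ZMod.unitsMap_val] at h2
    rw [ZMod.castHom_apply]
    exact h2
  · unfold IsStar at ht
    rw [ht, map_natCast]
    push_cast
    have h1 : (4 : ZMod 4) = 0 := by decide
    rw [h1]
    simp

lemma P1_vp_le {m p : ℕ} [NeZero m] (hp : p.Prime) (hpm : p ∣ m) (t : (ZMod m)ˣ)
    (ht : IsSquare (ZMod.unitsMap hpm t)) (x : ZMod m) :
    vp m p x ≤ vp m p ((t : ZMod m) * x) := by
  unfold vp
  obtain ⟨s, hs⟩ := ht
  have hp0 : 0 < p := hp.pos
  have : Fact p.Prime := ⟨hp⟩
  have hs1 : (((t : ZMod m).val : ℕ) : ZMod p) = (s : ZMod p) * (s : ZMod p) := by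
    have h1 := congrArg (fun u : (ZMod p)ˣ => (u : ZMod p)) hs
    simp only [ZMod.unitsMap_val, Units.val_mul] at h1
    rw [← h1, ZMod.cast_eq_val]
  have hunit : (((t : ZMod m).val : ℕ) : ZMod p) ≠ 0 := by
    rw [hs1]
    exact mul_ne_zero s.ne_zero s.ne_zero
  apply Nat.add_le_add
  · apply le_of_eq
    congr 1
    simp
  · apply Finset.card_le_card_of_injOn (fun k => ((t : ZMod m).val * k) % p)
    · intro k hk
      simp only [Finset.coe_filter, Finset.mem_range, Set.mem_setOf_eq] at hk ⊢
      obtain ⟨hk1, hk2, ⟨c, hc1, hc2⟩, hk3⟩ := hk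
      refine ⟨Nat.mod_lt _ hp0, ?_, ?_, ?_⟩
      · intro h
        have h1 : (((t : ZMod m).val * k : ℕ) : ZMod p) = 0 :=
          (ZMod.natCast_eq_zero_iff _ _).2 (Nat.dvd_of_mod_eq_zero h)
        push_cast at h1
        rcases mul_eq_zero.1 h1 with h2 | h2
        · exact hunit (by simpa using h2)
        · have h3 := (ZMod.natCast_eq_zero_iff _ _).1 h2
          exact hk2 (Nat.eq_zero_of_dvd_of_lt h3 hk1)
      · refine ⟨((s : ZMod p).val * c) % p, Nat.mod_lt _ hp0, ?_⟩
        apply (ZMod.natCast_eq_natCast_iff' _ _ _).1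
        push_cast
        simp only [ZMod.natCast_mod, Nat.cast_mul, ZMod.natCast_zmod_val]
        have h4 : ((k : ℕ) : ZMod p) = (c : ZMod p) * c := by
          rw [← hc2, ZMod.natCast_mod]
          push_cast; ring
        have h5 : ((t : ZMod m).cast : ZMod p) = (s : ZMod p) * s := by
          rw [← hs1, ZMod.cast_eq_val]
        first
        | (rw [h4, h5]; ring)
        | (rw [h4]; rw [hs1]; ring)
      · have h6 : ((((t : ZMod m).val * k) % p * (m / p) : ℕ) : ZMod m) =
            (((t : ZMod m).val * k * (m / p) : ℕ) : ZMod m) := by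
          rw [ZMod.natCast_eq_natCast_iff]
          have h7 : p * (m / p) = m := Nat.mul_div_cancel' hpm
          have h8 := Nat.ModEq.mul_right' (m / p) (Nat.mod_modEq ((t : ZMod m).val * k) p)
          rwa [h7] at h8
        rw [h6, ← hk3]
        push_cast
        rw [ZMod.natCast_zmod_val]
        ring
    · intro k hk k' hk' h
      simp only [Finset.coe_filter, Finset.mem_range, Set.mem_setOf_eq] at hk hk'
      have h1 : (((t : ZMod m).val * k : ℕ) : ZMod p) = (((t : ZMod m).val * k' : ℕ) : ZMod p) :=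
        (ZMod.natCast_eq_natCast_iff' _ _ _).2 h
      rw [Nat.cast_mul, Nat.cast_mul] at h1
      have h2 := mul_left_cancel₀ hunit h1
      have h3 := (ZMod.natCast_eq_natCast_iff' _ _ _).1 h2
      rwa [Nat.mod_eq_of_lt hk.1, Nat.mod_eq_of_lt hk'.1] at h3

lemma P1_vp_inv {m p : ℕ} [NeZero m] (hp : p.Prime) (hpm : p ∣ m) (t : (ZMod m)ˣ)
    (ht : IsSquare (ZMod.unitsMap hpm t)) (x : ZMod m) :
    vp m p ((t : ZMod m) * x) = vp m p x := by
  apply le_antisymm
  · have h := P1_vp_le hp hpm t⁻¹ (by rw [map_inv]; exact ht.inv) ((t : ZMod m) * x)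
    rwa [Units.inv_mul_cancel_left] at h
  · exact P1_vp_le hp hpm t ht x

theorem pat_inv (m : ℕ) [NeZero m] (four : Bool) (h4 : four = true → 4 ∣ m) (R : List ℕ)
    (hR : ∀ p ∈ R, p.Prime ∧ Odd p ∧ p ∣ m) : Inv m (pat m four R) := by
  intro t ht
  induction R with
  | nil =>
    intro x
    unfold pat
    cases four with
    | false => simp
    | true =>
      simp only [if_true]
      unfold kp
      have h1 : (t : ZMod m) * LP.emb 4 m 1 = LP.emb 4 m 1 := by
        rw [mul_emb (h4 rfl), P1_one_mod (h4 rfl) t ht, one_mul]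
      have h2 : (t : ZMod m) * x = LP.emb 4 m 1 ↔ x = LP.emb 4 m 1 := by
        conv_lhs => rw [← h1]
        exact Units.mul_right_inj t
      simp only [h2]
  | cons p R ih =>
    intro x
    have ih' := ih (fun q hq => hR q (List.mem_cons_of_mem _ hq))
    obtain ⟨hp, ho, hpm⟩ := hR p List.mem_cons_self
    show conv (vp m p) (pat m four R) ((t : ZMod m) * x) = conv (vp m p) (pat m four R) x
    unfold conv
    symm
    apply Fintype.sum_equiv (Units.mulLeft t)
    intro y
    show vp m p y * pat m four R (x - y) =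
      vp m p ((t : ZMod m) * y) * pat m four R ((t : ZMod m) * x - (t : ZMod m) * y)
    rw [P1_vp_inv hp hpm t (P1_sq_mod hp ho hpm t ht), ← mul_sub, ih']

theorem pat_supp (m D : ℕ) [NeZero m] (hD : D ∣ m) (four : Bool) (h4 : four = true → 4 ∣ D)
    (R : List ℕ) (hR : ∀ p ∈ R, p.Prime ∧ p ∣ D) (x : ZMod m) (hx : pat m four R x ≠ 0) :
    addOrderOf x ∣ D := by
  rw [addOrderOf_dvd_iff_nsmul_eq_zero]
  induction R generalizing x with
  | nil =>
    unfold pat at hx
    cases four with
    | false =>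
      by_cases h : x = 0
      · rw [h, smul_zero]
      · simp [h] at hx
    | true =>
      simp only [if_true] at hx
      unfold kp at hx
      by_cases h : x = LP.emb 4 m 1
      · rw [h]
        have := (nsmul_emb_eq_zero ((h4 rfl).trans hD) D (1 : (ZMod 4)ˣ)).2 (h4 rfl)
        rwa [Units.val_one] at this
      · simp [h] at hx
  | cons p R ih =>
    have hx' : conv (vp m p) (pat m four R) x ≠ 0 := hx
    unfold conv at hx'
    obtain ⟨y, _, hy⟩ := Finset.exists_ne_zero_of_sum_ne_zero hx'
    have hy1 : vp m p y ≠ 0 := left_ne_zero_of_mul hy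
    have hy2 : pat m four R (x - y) ≠ 0 := right_ne_zero_of_mul hy
    have h1 := ih (fun q hq => hR q (List.mem_cons_of_mem _ hq)) (x - y) hy2
    obtain ⟨hp, hpD⟩ := hR p List.mem_cons_self
    have h2 : D • y = 0 := by
      unfold vp at hy1
      by_cases h : y = 0
      · rw [h, smul_zero]
      · rw [if_neg h, zero_add] at hy1
        obtain ⟨k, hk⟩ := Finset.card_ne_zero.1 hy1
        rw [Finset.mem_filter] at hk
        obtain ⟨_, _, _, hk3⟩ := hk
        rw [← hk3, nsmul_eq_mul, ← Nat.cast_mul, ZMod.natCast_eq_zero_iff]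
        obtain ⟨a, ha⟩ := hpD
        refine ⟨a * k, ?_⟩
        have h7 : p * (m / p) = m := Nat.mul_div_cancel' ((Dvd.intro a ha.symm).trans hD)
        calc D * (k * (m / p)) = (p * (m / p)) * (a * k) := by rw [ha]; ring
          _ = m * (a * k) := by rw [h7]
    have h3 : x = y + (x - y) := by ring
    rw [h3, smul_add, h2, h1, add_zero]

end Pool.Agent.helper76.MC
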