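import Pool.Agent.helper76.MC.Defs

/-! # Project MC, module P2: the top part of the patterns, even case -/

namespace Pool.Agent.helper76.MC

open Finset Pool.Agent.helper34.DH Pool.Agent.helper76.FV Pool.Agent.helper76.LP
open Pool.Agent.helper76.UR
open Matrix (SpecialLinearGroup)

section PA
variable {G ι : Type*} [CommGroup G]

lemma P2_par_sub (ν : ι → G) (L : List ι) (f g : G → ℤ) (z : G) :
    par ν L (fun x => f x - g x) z = par ν L f z - par ν L g z := by
  induction L generalizing f g z with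
  | nil => rfl
  | cons p L ih =>
    show par ν L (fun x => (f (ν p * x) - g (ν p * x)) + (f x - g x)) z =
      par ν L (fun x => f (ν p * x) + f x) z - par ν L (fun x => g (ν p * x) + g x) z
    rw [← ih]
    congr 1
    funext x
    ring

lemma P2_par_mul (L : List ι) (hnd : L.Nodup) (ν : ι → G) (φ : ι → G → ℤ) (g : G → ℤ)
    (hg : ∀ q ∈ L, ∀ z, g (ν q * z) = g z)
    (h : ∀ p ∈ L, ∀ q ∈ L, q ≠ p → ∀ z, φ p (ν q * z) = φ p z) (z : G) :
    par ν L (fun z => g z * (L.map fun p => φ p z).prod) z =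
      g z * (L.map fun p => φ p (ν p * z) + φ p z).prod := by
  induction L generalizing g z with
  | nil => rfl
  | cons p L ih =>
    have hp : p ∉ L := (List.nodup_cons.1 hnd).1
    have h1 : ∀ x : G, (L.map fun i => φ i (ν p * x)).prod = (L.map fun i => φ i x).prod := by
      intro x
      congr 1
      apply List.map_congr_left
      intro i hi
      exact h i (List.mem_cons_of_mem _ hi) p List.mem_cons_self (by rintro rfl; exact hp hi) x
    have h2 := ih (List.nodup_cons.1 hnd).2 (fun x => g x * (φ p (ν p * x) + φ p x))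
      (by
        intro q hq x
        have hqp : q ≠ p := by rintro rfl; exact hp hq
        have hq' : q ∈ p :: L := List.mem_cons_of_mem _ hq
        show g (ν q * x) * (φ p (ν p * (ν q * x)) + φ p (ν q * x)) =
          g x * (φ p (ν p * x) + φ p x)
        rw [hg q hq', h p List.mem_cons_self q hq' hqp, mul_left_comm,
          h p List.mem_cons_self q hq' hqp])
      (fun a ha b hb => h a (List.mem_cons_of_mem _ ha) b (List.mem_cons_of_mem _ hb)) z
    show par ν L (fun x => g (ν p * x) * (φ p (ν p * x) * (L.map fun i => φ i (ν p * x)).prod) +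
      g x * (φ p x * (L.map fun i => φ i x).prod)) z =
      g z * ((φ p (ν p * z) + φ p z) * (L.map fun p => φ p (ν p * z) + φ p z).prod)
    rw [← mul_assoc, ← h2]
    congr 1
    funext x
    rw [h1, hg p List.mem_cons_self]
    ring

lemma P2_inv_list (M : List ι) (ν : ι → G) (f : G → ℤ)
    (h : ∀ q ∈ M, ∀ z, f (ν q * z) = f z) (z : G) : f ((M.map ν).prod * z) = f z := by
  induction M with
  | nil => simp
  | cons q M ih =>
    rw [List.map_cons, List.prod_cons, mul_assoc, h q List.mem_cons_self]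
    exact ih fun a ha => h a (List.mem_cons_of_mem _ ha)

lemma P2_inv_all [DecidableEq ι] (M : List ι) (hM : M.Nodup) (ν : ι → G) (f : G → ℤ) (p : ι)
    (hp : p ∈ M) (h : ∀ q ∈ M, q ≠ p → ∀ z, f (ν q * z) = f z) (z : G) :
    f ((M.map ν).prod * z) = f (ν p * z) := by
  have h1 : (M.map ν).prod = ((M.erase p).map ν).prod * ν p := by
    rw [((List.perm_cons_erase hp).map ν).prod_eq, List.map_cons, List.prod_cons, mul_comm]
  rw [h1, mul_assoc]
  apply P2_inv_list
  intro q hq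
  have hq' := (List.Nodup.mem_erase_iff hM).1 hq
  exact h q hq'.2 hq'.1

end PA

lemma P2_odd_prod {ι : Type*} (L : List ι) (f : ι → ℤ) (h : ∀ p ∈ L, Odd (f p)) :
    Odd (L.map f).prod := by
  induction L with
  | nil => simp
  | cons p L ih =>
    rw [List.map_cons, List.prod_cons]
    exact (h p List.mem_cons_self).mul (ih fun q hq => h q (List.mem_cons_of_mem _ hq))

theorem P2_pat_par_of (m D : ℕ) [NeZero m] [NeZero D] (hDm : D ∣ m)
    (L : List ℕ) (q : ℕ) (hLn : (L ++ [q]).Nodup) (hL : (L ++ [q]).toFinset = D.primeFactors)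
    (ν : ℕ → (ZMod D)ˣ) (hν : ∀ p ∈ L ++ [q], ν p ∈ Gam D p ∧ ν p * ν p = 1 ∧ ν p ≠ 1)
    (hprod : ((L ++ [q]).map ν).prod = -1) (R : List ℕ)
    (φ : ℕ → (ZMod D)ˣ → ℤ)
    (h1 : ∀ z : (ZMod D)ˣ, ((pat m (decide (4 ∣ D)) R (LP.emb D m (z : ZMod D)) : ℕ) : ℤ) =
        ∏ p ∈ D.primeFactors, φ p z)
    (h2 : ∀ p ∈ D.primeFactors, ∀ q ∈ D.primeFactors, q ≠ p → ∀ γ ∈ Gam D q, ∀ z,
        φ p (γ * z) = φ p z)
    (h3 : ∀ p ∈ D.primeFactors, ∀ ν ∈ Gam D p, ν * ν = 1 → ν ≠ 1 → ∀ z,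
        φ p (ν * z) - φ p z = 1 ∨ φ p (ν * z) - φ p z = -1) :
    Odd (par ν L (fun z => anti (fun x => ((pat m (decide (4 ∣ D)) R x : ℕ) : ℤ))
      (LP.emb D m (z : ZMod D))) 1) := by
  have hmem : ∀ p, p ∈ L ++ [q] ↔ p ∈ D.primeFactors := fun p => by
    rw [← hL, List.mem_toFinset]
  have hinv : ∀ p ∈ L ++ [q], ∀ r ∈ L ++ [q], r ≠ p → ∀ z, φ p (ν r * z) = φ p z :=
    fun p hp r hr hrp z => h2 p ((hmem p).1 hp) r ((hmem r).1 hr) hrp (ν r) (hν r hr).1 z
  have hP : ∀ z : (ZMod D)ˣ, ((pat m (decide (4 ∣ D)) R (LP.emb D m (z : ZMod D)) : ℕ) : ℤ) =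
      φ q z * (L.map fun p => φ p z).prod := by
    intro z
    rw [h1, ← hL, List.prod_toFinset _ hLn]
    simp [mul_comm]
  have hN : ∀ p ∈ L ++ [q], ∀ z, φ p (-z) = φ p (ν p * z) := by
    intro p hp z
    rw [← neg_one_mul, ← hprod]
    exact P2_inv_all (L ++ [q]) hLn ν (φ p) p hp (fun r hr hrp z => hinv p hp r hr hrp z) z
  have hqm : q ∈ L ++ [q] := by simp
  have hLm : ∀ p ∈ L, p ∈ L ++ [q] := fun p hp => List.mem_append_left _ hp
  have hqL : ∀ p ∈ L, p ≠ q := by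
    rintro p hp rfl
    rw [List.nodup_append] at hLn
    exact hLn.2.2 p hp p (by simp) rfl
  have hLn' : L.Nodup := (List.nodup_append.1 hLn).1
  have hf : (fun z : (ZMod D)ˣ => anti (fun x => ((pat m (decide (4 ∣ D)) R x : ℕ) : ℤ))
      (LP.emb D m (z : ZMod D))) = fun z => φ q z * (L.map fun p => φ p z).prod -
        φ q (ν q * z) * (L.map fun p => φ p (ν p * z)).prod := by
    funext z
    unfold anti
    rw [← emb_neg hDm]
    have h5 : (-(z : ZMod D)) = ((-z : (ZMod D)ˣ) : ZMod D) := by rw [Units.val_neg]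
    rw [h5]
    beta_reduce
    rw [hP z, hP (-z), hN q hqm]
    congr 2
    congr 1
    apply List.map_congr_left
    intro p hp
    exact hN p (hLm p hp) z
  rw [hf, P2_par_sub]
  rw [P2_par_mul L hLn' ν φ (φ q) (fun r hr z => hinv q hqm r (hLm r hr) (hqL r hr) z)
    (fun p hp r hr hrp z => hinv p (hLm p hp) r (hLm r hr) hrp z)]
  rw [P2_par_mul L hLn' ν (fun p z => φ p (ν p * z)) (fun z => φ q (ν q * z))
    (fun r hr z => by
      show φ q (ν q * (ν r * z)) = φ q (ν q * z)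
      rw [mul_left_comm]
      exact hinv q hqm r (hLm r hr) (hqL r hr) _)
    (fun p hp r hr hrp z => by
      show φ p (ν p * (ν r * z)) = φ p (ν p * z)
      rw [mul_left_comm]
      exact hinv p (hLm p hp) r (hLm r hr) hrp _)]
  have h6 : (L.map fun p => φ p (ν p * (ν p * 1)) + φ p (ν p * 1)).prod =
      (L.map fun p => φ p (ν p * 1) + φ p 1).prod := by
    congr 1
    apply List.map_congr_left
    intro p hp
    rw [← mul_assoc, (hν p (hLm p hp)).2.1, one_mul]
    ring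
  show Odd (φ q 1 * (L.map fun p => φ p (ν p * 1) + φ p 1).prod -
    φ q (ν q * 1) * (L.map fun p => φ p (ν p * (ν p * 1)) + φ p (ν p * 1)).prod)
  rw [h6, ← sub_mul]
  have h7 : ∀ p ∈ L ++ [q], Odd (φ p (ν p * 1) - φ p 1) := by
    intro p hp
    obtain ⟨a, b, c⟩ := hν p hp
    rcases h3 p ((hmem p).1 hp) (ν p) a b c 1 with h | h
    · rw [h]; decide
    · rw [h]; decide
  apply Odd.mul
  · have := (h7 q hqm).neg
    rwa [neg_sub] at this
  · apply P2_odd_prod
    intro p hp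
    have h8 := h7 p (hLm p hp)
    have h9 : φ p (ν p * 1) + φ p 1 = (φ p (ν p * 1) - φ p 1) + 2 * φ p 1 := by ring
    rw [h9]
    exact h8.add_even (even_two_mul _)

/-- `pat_par` from the statement `pat_prod` of the module P0 -/
theorem pat_par_of
    (hP0 : ∀ (m D : ℕ) [NeZero m] [NeZero D] (_ : D ∣ m) (_ : Lform D) (_ : Three D)
      (R : List ℕ) (_ : R.Nodup) (_ : ∀ p, p ∈ R ↔ p ∈ D.primeFactors ∧ p ≠ 2),
      ∃ φ : ℕ → (ZMod D)ˣ → ℤ,
        (∀ z : (ZMod D)ˣ, ((pat m (decide (4 ∣ D)) R (LP.emb D m (z : ZMod D)) : ℕ) : ℤ) =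
          ∏ p ∈ D.primeFactors, φ p z) ∧
        (∀ p ∈ D.primeFactors, ∀ q ∈ D.primeFactors, q ≠ p → ∀ γ ∈ Gam D q, ∀ z,
          φ p (γ * z) = φ p z) ∧
        (∀ p ∈ D.primeFactors, ∀ ν ∈ Gam D p, ν * ν = 1 → ν ≠ 1 → ∀ z,
          φ p (ν * z) - φ p z = 1 ∨ φ p (ν * z) - φ p z = -1))
    (m D : ℕ) [NeZero m] [NeZero D] (hDm : D ∣ m) (hD : Lform D) (h3 : Three D)
    (L : List ℕ) (q : ℕ) (hLn : (L ++ [q]).Nodup) (hL : (L ++ [q]).toFinset = D.primeFactors)
    (ν : ℕ → (ZMod D)ˣ) (hν : ∀ p ∈ L ++ [q], ν p ∈ Gam D p ∧ ν p * ν p = 1 ∧ ν p ≠ 1)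
    (hprod : ((L ++ [q]).map ν).prod = -1) (_hk : Even (L ++ [q]).length) (R : List ℕ)
    (hRn : R.Nodup) (hR : ∀ p, p ∈ R ↔ p ∈ D.primeFactors ∧ p ≠ 2) :
    Odd (par ν L (fun z => anti (fun x => ((pat m (decide (4 ∣ D)) R x : ℕ) : ℤ))
      (LP.emb D m (z : ZMod D))) 1) := by
  obtain ⟨φ, h1, h2, h3'⟩ := hP0 m D hDm hD h3 R hRn hR
  exact P2_pat_par_of m D hDm L q hLn hL ν hν hprod R φ h1 h2 h3'

end Pool.Agent.helper76.MC
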