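import Pool.Agent.helper71.MC.P2
import Pool.Agent.helper81.MC.P0

/-! # Project MC, module P2: final form -/

namespace Pool.Agent.helper76.MC

open Finset Pool.Agent.helper34.DH Pool.Agent.helper76.FV Pool.Agent.helper76.LP
open Pool.Agent.helper76.UR
open Matrix (SpecialLinearGroup)

theorem pat_par (m D : ℕ) [NeZero m] [NeZero D] (hDm : D ∣ m) (hD : Lform D) (h3 : Three D)
    (L : List ℕ) (q : ℕ) (hLn : (L ++ [q]).Nodup) (hL : (L ++ [q]).toFinset = D.primeFactors)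
    (ν : ℕ → (ZMod D)ˣ) (hν : ∀ p ∈ L ++ [q], ν p ∈ Gam D p ∧ ν p * ν p = 1 ∧ ν p ≠ 1)
    (hprod : ((L ++ [q]).map ν).prod = -1) (hk : Even (L ++ [q]).length) (R : List ℕ)
    (hRn : R.Nodup) (hR : ∀ p, p ∈ R ↔ p ∈ D.primeFactors ∧ p ≠ 2) :
    Odd (par ν L (fun z => anti (fun x => ((pat m (decide (4 ∣ D)) R x : ℕ) : ℤ))
      (LP.emb D m (z : ZMod D))) 1) :=
  pat_par_of (fun m D _ _ a b c R d e => pat_prod m D a b c R d e) m D hDm hD h3 L q hLn hL ν hν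
    hprod hk R hRn hR

end Pool.Agent.helper76.MC
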